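import Mathlib

/-!
# The order of magnitude of the largest `k,d`-chromatic number of graphs of bounded degree

For all `3 ≤ k ≤ d + 1` the quantity `F_{k,d}(Δ)` has order of magnitude `Δ ^ t` with
`t = ⌊d / (k - 1)⌋`.
-/

namespace Pool.Agent.Results.MP_70a435_co.OrderOfMagnitude

open SimpleGraph Filter Asymptotics

/-- A set `S` of vertices is `k,d`-independent in `G` if every shortest path of `G`
(a walk whose length is the distance between its endpoints) of length at most `d`
contains fewer than `k` vertices of `S`. -/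
def Indep {V : Type*} (G : SimpleGraph V) (k d : ℕ) (S : Set V) : Prop :=
  ∀ (u v : V) (p : G.Walk u v), p.length = G.dist u v → p.length ≤ d →
    {x | x ∈ p.support ∧ x ∈ S}.ncard < k

/-- The `k,d`-chromatic number: the least `c` such that the vertices can be coloured with
`c` colours in such a way that every colour class is `k,d`-independent. -/
noncomputable def chi {V : Type*} (G : SimpleGraph V) (k d : ℕ) : ℕ :=
  sInf {c | ∃ f : V → Fin c, ∀ i, Indep G k d {v | f v = i}}

/-- `M_{k,d}(n,Δ)`: the largest `k,d`-chromatic number of a graph on `n` vertices whose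
maximum degree is at most `Δ`. -/
noncomputable def M (k d n Δ : ℕ) : ℕ :=
  sSup {c | ∃ (G : SimpleGraph (Fin n)) (_ : DecidableRel G.Adj),
    G.maxDegree ≤ Δ ∧ chi G k d = c}

/-- `F_{k,d}(Δ)`: the supremum (in `ℕ∞`) of `M_{k,d}(n,Δ)` over all `n ≥ 1`. -/
noncomputable def F (k d Δ : ℕ) : ℕ∞ := ⨆ (n : ℕ) (_ : 1 ≤ n), (M k d n Δ : ℕ∞)

/-! ### Greedy colouring -/

lemma greedy {V : Type*} [Fintype V] (R : V → V → Prop) (hs : ∀ u v, R u v → R v u)
    (hi : ∀ u, ¬ R u u) (D : ℕ) (h : ∀ v, {w | R v w}.ncard ≤ D) :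
    ∃ f : V → Fin (D + 1), ∀ u v, R u v → f u ≠ f v := by
  classical
  have key : ∀ s : Finset V, ∃ f : V → Fin (D + 1), ∀ u ∈ s, ∀ v ∈ s, R u v → f u ≠ f v := by
    intro s
    induction s using Finset.induction_on with
    | empty => exact ⟨fun _ => 0, by simp⟩
    | insert a s ha ih =>
      obtain ⟨f, hf⟩ := ih
      have hcard : (Finset.univ.filter (fun w => R a w)).card ≤ D := by
        have := h a
        rw [Set.ncard_eq_toFinset_card'] at this
        simpa using this
      have : ∃ c : Fin (D + 1), c ∉ (Finset.univ.filter (fun w => R a w)).image f := by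
        by_contra hcon
        push Not at hcon
        have h1 : (Finset.univ : Finset (Fin (D + 1))) ⊆
            (Finset.univ.filter (fun w => R a w)).image f := fun c _ => hcon c
        have h2 := Finset.card_le_card h1
        have h3 := Finset.card_image_le (s := Finset.univ.filter (fun w => R a w)) (f := f)
        simp at h2
        omega
      obtain ⟨c, hc⟩ := this
      refine ⟨Function.update f a c, ?_⟩
      intro u hu v hv huv
      by_cases hua : u = a
      · by_cases hva : v = a
        · subst hua; subst hva; exact absurd huv (hi _)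
        · subst hua
          rw [Function.update_self, Function.update_of_ne hva]
          intro hcv
          apply hc
          rw [Finset.mem_image]
          exact ⟨v, by simpa using huv, hcv.symm⟩
      · by_cases hva : v = a
        · subst hva
          rw [Function.update_self, Function.update_of_ne hua]
          intro hcv
          apply hc
          rw [Finset.mem_image]
          exact ⟨u, by simpa using hs _ _ huv, hcv⟩
        · rw [Function.update_of_ne hua, Function.update_of_ne hva]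
          have hu' : u ∈ s := by
            rcases Finset.mem_insert.mp hu with h | h
            · exact absurd h hua
            · exact h
          have hv' : v ∈ s := by
            rcases Finset.mem_insert.mp hv with h | h
            · exact absurd h hva
            · exact h
          exact hf u hu' v hv' huv
  obtain ⟨f, hf⟩ := key Finset.univ
  exact ⟨f, fun u v => hf u (Finset.mem_univ _) v (Finset.mem_univ _)⟩

/-! ### The size of balls -/

/-- The sphere of radius `i` around `v`. -/
def sphere {V : Type*} (G : SimpleGraph V) (v : V) (i : ℕ) : Set V :=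
  {w | G.Reachable v w ∧ G.dist v w = i}

lemma exists_pred {V : Type*} (G : SimpleGraph V) (v w : V) (i : ℕ)
    (h : w ∈ sphere G v (i + 1)) : ∃ u, u ∈ sphere G v i ∧ G.Adj u w := by
  obtain ⟨hr, hd⟩ := h
  obtain ⟨p, hp⟩ := hr.symm.exists_walk_length_eq_dist
  cases p with
  | nil => rw [SimpleGraph.dist_self] at hd; omega
  | @cons _ u _ hadj q =>
    refine ⟨u, ⟨q.reachable.symm, ?_⟩, hadj.symm⟩
    have h1 : G.dist w v = i + 1 := by rw [SimpleGraph.dist_comm]; exact hd
    have h2 : G.dist u v ≤ q.length := dist_le q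
    rw [Walk.length_cons] at hp
    have h3 : q.length = i := by omega
    obtain ⟨r, hr'⟩ := q.reachable.exists_walk_length_eq_dist
    have h4 : G.dist w v ≤ (Walk.cons hadj r).length := dist_le _
    rw [Walk.length_cons] at h4
    rw [SimpleGraph.dist_comm]
    omega

lemma sphere_zero {V : Type*} (G : SimpleGraph V) (v : V) : sphere G v 0 = {v} := by
  ext w
  simp only [sphere, Set.mem_ofPred_eq, Set.mem_singleton_iff]
  constructor
  · rintro ⟨hr, hd⟩
    exact (hr.dist_eq_zero_iff.mp hd).symm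
  · rintro rfl
    exact ⟨Reachable.refl _, by simp⟩

lemma sphere_one_card {V : Type*} [Fintype V] (G : SimpleGraph V) [DecidableRel G.Adj] (v : V) :
    (sphere G v 1).ncard ≤ G.maxDegree := by
  have : sphere G v 1 ⊆ (G.neighborFinset v : Set V) := by
    rintro w ⟨_, hd⟩
    simpa using dist_eq_one_iff_adj.mp hd
  calc (sphere G v 1).ncard ≤ (G.neighborFinset v : Set V).ncard :=
        Set.ncard_le_ncard this (Set.toFinite _)
    _ = G.degree v := by rw [Set.ncard_coe_finset]; rfl
    _ ≤ G.maxDegree := G.degree_le_maxDegree v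

lemma sphere_succ_card {V : Type*} [Fintype V] (G : SimpleGraph V) [DecidableRel G.Adj] (v : V)
    (i : ℕ) : (sphere G v (i + 2)).ncard ≤ (G.maxDegree - 1) * (sphere G v (i + 1)).ncard := by
  classical
  have hsub : sphere G v (i + 2) ⊆
      ((sphere G v (i + 1)).toFinset.biUnion
        (fun u => (G.neighborFinset u) ∩ (sphere G v (i + 2)).toFinset) : Set V) := by
    intro w hw
    obtain ⟨u, hu, hadj⟩ := exists_pred G v w (i + 1) hw
    simp only [Finset.coe_biUnion, Set.mem_iUnion]
    refine ⟨u, by simpa using hu, ?_⟩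
    simp only [Finset.coe_inter, Set.mem_inter_iff, Finset.mem_coe, mem_neighborFinset,
      Set.mem_toFinset]
    exact ⟨hadj, hw⟩
  have h1 := Set.ncard_le_ncard hsub (Set.toFinite _)
  rw [Set.ncard_coe_finset] at h1
  refine h1.trans ?_
  rw [mul_comm]
  refine (Finset.card_biUnion_le_card_mul _ _ (G.maxDegree - 1) ?_).trans ?_
  · intro u hu
    have hu' : u ∈ sphere G v (i + 1) := by simpa using hu
    obtain ⟨x, hx, hxu⟩ := exists_pred G v u i hu'
    have hlt : ((G.neighborFinset u) ∩ (sphere G v (i + 2)).toFinset) ⊂ G.neighborFinset u := by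
      refine Finset.ssubset_iff_subset_ne.mpr ⟨Finset.inter_subset_left, ?_⟩
      intro heq
      have hxm : x ∈ G.neighborFinset u := by simpa using hxu.symm
      rw [← heq] at hxm
      have := (Finset.mem_inter.mp hxm).2
      have h5 : x ∈ sphere G v (i + 2) := by simpa using this
      have h6 := hx.2
      have h7 := h5.2
      omega
    have := Finset.card_lt_card hlt
    have h8 : (G.neighborFinset u).card ≤ G.maxDegree := G.degree_le_maxDegree u
    omega
  · rw [Set.ncard_eq_toFinset_card']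

lemma sphere_card {V : Type*} [Fintype V] (G : SimpleGraph V) [DecidableRel G.Adj] (v : V)
    (i : ℕ) : (sphere G v (i + 1)).ncard ≤ G.maxDegree * (G.maxDegree - 1) ^ i := by
  induction i with
  | zero => simpa using sphere_one_card G v
  | succ i ih =>
    calc (sphere G v (i + 2)).ncard ≤ (G.maxDegree - 1) * (sphere G v (i + 1)).ncard :=
          sphere_succ_card G v i
      _ ≤ (G.maxDegree - 1) * (G.maxDegree * (G.maxDegree - 1) ^ i) :=
          Nat.mul_le_mul_left _ ih
      _ = G.maxDegree * (G.maxDegree - 1) ^ (i + 1) := by ring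

lemma ball_card {V : Type*} [Fintype V] (G : SimpleGraph V) [DecidableRel G.Adj] (v : V)
    (t : ℕ) : {w | v ≠ w ∧ G.Reachable v w ∧ G.dist v w ≤ t}.ncard ≤
      G.maxDegree * ∑ i ∈ Finset.range t, (G.maxDegree - 1) ^ i := by
  classical
  have hsub : {w | v ≠ w ∧ G.Reachable v w ∧ G.dist v w ≤ t} ⊆
      (((Finset.range t).biUnion (fun i => (sphere G v (i + 1)).toFinset) : Finset V) : Set V) := by
    rintro w ⟨hne, hr, hd⟩
    have hpos := hr.pos_dist_of_ne hne
    simp only [Finset.coe_biUnion, Set.mem_iUnion]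
    refine ⟨G.dist v w - 1, by simp; omega, ?_⟩
    simp only [Set.coe_toFinset]
    exact ⟨hr, by omega⟩
  refine (Set.ncard_le_ncard hsub (Set.toFinite _)).trans ?_
  rw [Set.ncard_coe_finset, Finset.mul_sum]
  refine Finset.card_biUnion_le.trans (Finset.sum_le_sum ?_)
  intro i _
  rw [← Set.ncard_eq_toFinset_card']
  exact sphere_card G v i

/-! ### The upper bound -/

lemma indep_of_far {V : Type*} (G : SimpleGraph V) (k d : ℕ) (hk : 2 ≤ k) (S : Set V)
    (hS : ∀ x ∈ S, ∀ y ∈ S, x ≠ y → G.Reachable x y → d / (k - 1) < G.dist x y) :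
    Indep G k d S := by
  classical
  intro u v p hp hpd
  by_contra hcon
  push Not at hcon
  obtain ⟨t, ht⟩ : ∃ t, t = d / (k - 1) := ⟨_, rfl⟩
  rw [← ht] at hS
  set J : Finset ℕ := (Finset.range (p.length + 1)).filter (fun j => p.getVert j ∈ S) with hJ
  have hsub : {x | x ∈ p.support ∧ x ∈ S} ⊆ ((J.image p.getVert : Finset V) : Set V) := by
    rintro x ⟨hx, hxS⟩
    obtain ⟨n, hn, hnl⟩ := Walk.mem_support_iff_exists_getVert.mp hx
    rw [Finset.coe_image]
    refine ⟨n, ?_, hn⟩
    simp only [hJ, Finset.coe_filter, Finset.mem_range, Set.mem_ofPred_eq]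
    exact ⟨by omega, by rw [hn]; exact hxS⟩
  have h1 := Set.ncard_le_ncard hsub (Set.toFinite _)
  rw [Set.ncard_coe_finset] at h1
  have h2 : k ≤ J.card := hcon.trans (h1.trans Finset.card_image_le)
  have hmul : d < (k - 1) * (t + 1) := by
    have := Nat.lt_mul_div_succ d (show 0 < k - 1 by omega)
    rw [ht]
    exact this
  have h3 : (Finset.range (k - 1)).card < J.card := by rw [Finset.card_range]; omega
  have hmaps : Set.MapsTo (fun j => j / (t + 1)) (J : Set ℕ) (Finset.range (k - 1) : Set ℕ) := by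
    intro j hj
    simp only [hJ, Finset.coe_filter, Finset.mem_range, Set.mem_ofPred_eq] at hj
    simp only [Finset.coe_range, Set.mem_Iio]
    rw [Nat.div_lt_iff_lt_mul (Nat.succ_pos t)]
    exact lt_of_le_of_lt (by omega : j ≤ d) hmul
  obtain ⟨a, ha, b, hb, hab, habeq⟩ := Finset.exists_ne_map_eq_of_card_lt_of_maps_to h3 hmaps
  wlog hlt : a < b generalizing a b
  · exact this b hb a ha hab.symm habeq.symm (by omega)
  have hdiff : b - a ≤ t := by
    have e1 := Nat.div_add_mod a (t + 1)
    have e2 := Nat.div_add_mod b (t + 1)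
    have e3 : a % (t + 1) < t + 1 := Nat.mod_lt a (Nat.succ_pos t)
    have e4 : b % (t + 1) < t + 1 := Nat.mod_lt b (Nat.succ_pos t)
    have e5 : a / (t + 1) = b / (t + 1) := habeq
    rw [e5] at e1
    omega
  simp only [hJ, Finset.mem_filter, Finset.mem_range] at ha hb
  have hpath : p.IsPath := p.isPath_of_length_eq_dist hp
  have hne : p.getVert a ≠ p.getVert b := by
    intro h
    exact hab (hpath.getVert_injOn (by simp; omega) (by simp; omega) h)
  let q : G.Walk (p.getVert a) (p.getVert b) :=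
    ((p.drop a).take (b - a)).copy rfl (by rw [Walk.drop_getVert]; congr 1; omega)
  have hq : q.length ≤ b - a := by
    simp only [q, Walk.length_copy, Walk.take_length]
    exact min_le_left _ _
  have hd1 : G.dist (p.getVert a) (p.getVert b) ≤ q.length := dist_le q
  have hd2 := hS _ ha.2 _ hb.2 hne q.reachable
  omega

lemma chi_le {V : Type*} [Fintype V] (G : SimpleGraph V) [DecidableRel G.Adj] (k d : ℕ)
    (hk : 2 ≤ k) : chi G k d ≤
      1 + G.maxDegree * ∑ i ∈ Finset.range (d / (k - 1)), (G.maxDegree - 1) ^ i := by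
  obtain ⟨f, hf⟩ := greedy (fun v w => v ≠ w ∧ G.Reachable v w ∧ G.dist v w ≤ d / (k - 1))
    (fun u v h => ⟨h.1.symm, h.2.1.symm, by rw [SimpleGraph.dist_comm]; exact h.2.2⟩)
    (fun u h => h.1 rfl) _ (fun v => ball_card G v (d / (k - 1)))
  rw [add_comm]
  refine Nat.sInf_le ⟨f, fun i => ?_⟩
  apply indep_of_far G k d hk
  intro x hx y hy hne hr
  by_contra hcon
  push Not at hcon
  exact hf x y ⟨hne, hr, hcon⟩ (hx.trans hy.symm)

/-! ### Hamming graphs -/

/-- The Hamming graph: two words are adjacent if they differ in exactly one coordinate. -/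
def hamming (ι : Type) [Fintype ι] (q : ℕ) : SimpleGraph (ι → Fin q) where
  Adj x y := hammingDist x y = 1
  symm := ⟨fun x y h => by rw [hammingDist_comm]; exact h⟩
  loopless := ⟨fun x h => by simp at h⟩

lemma hammingDist_le_length {ι : Type} [Fintype ι] {q : ℕ} {x y : ι → Fin q}
    (p : (hamming ι q).Walk x y) : hammingDist x y ≤ p.length := by
  induction p with
  | nil => simp
  | @cons u v w h p ih =>
    rw [Walk.length_cons]
    have h1 : hammingDist u v = 1 := h
    have := hammingDist_triangle u v w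
    omega

lemma exists_walk_hamming {ι : Type} [Fintype ι] {q : ℕ} (n : ℕ) :
    ∀ x y : ι → Fin q, hammingDist x y = n →
      ∃ p : (hamming ι q).Walk x y, p.length = hammingDist x y := by
  classical
  induction n with
  | zero =>
    intro x y h
    have : x = y := hammingDist_eq_zero.mp h
    subst this
    exact ⟨Walk.nil, by simp⟩
  | succ n ih =>
    intro x y h
    have hne : x ≠ y := by
      rintro rfl
      simp at h
    obtain ⟨i, hi⟩ := Function.ne_iff.mp hne
    set z : ι → Fin q := Function.update x i (y i) with hz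
    have hxz : hammingDist x z = 1 := by
      unfold hammingDist
      rw [Finset.card_eq_one]
      refine ⟨i, ?_⟩
      ext j
      simp only [Finset.mem_filter, Finset.mem_univ, true_and, Finset.mem_singleton]
      by_cases hj : j = i
      · subst hj; simp [hz, hi]
      · simp [hz, hj]
    have hzy : hammingDist z y = n := by
      have hset : (Finset.univ.filter (fun j => x j ≠ y j)) =
          insert i (Finset.univ.filter (fun j => z j ≠ y j)) := by
        ext j
        simp only [Finset.mem_filter, Finset.mem_univ, true_and, Finset.mem_insert]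
        by_cases hj : j = i
        · subst hj; simp [hi]
        · simp [hz, hj]
      have h2 : hammingDist x y = (Finset.univ.filter (fun j => x j ≠ y j)).card := rfl
      have h3 : hammingDist z y = (Finset.univ.filter (fun j => z j ≠ y j)).card := rfl
      rw [hset, Finset.card_insert_of_notMem (by simp [hz])] at h2
      omega
    obtain ⟨p, hp⟩ := ih z y hzy
    have hadj : (hamming ι q).Adj x z := hxz
    exact ⟨Walk.cons hadj p, by rw [Walk.length_cons, hp]; omega⟩

lemma dist_hamming {ι : Type} [Fintype ι] {q : ℕ} (x y : ι → Fin q) :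
    (hamming ι q).dist x y = hammingDist x y := by
  obtain ⟨p, hp⟩ := exists_walk_hamming _ x y rfl
  obtain ⟨r, hr⟩ := p.reachable.exists_walk_length_eq_dist
  have h1 := dist_le p
  have h2 := hammingDist_le_length r
  omega

lemma hamming_degree {ι : Type} [Fintype ι] [DecidableEq ι] {q : ℕ} [DecidableRel (hamming ι q).Adj] :
    (hamming ι q).maxDegree ≤ Fintype.card ι * (q - 1) := by
  classical
  apply maxDegree_le_of_forall_degree_le
  intro x
  have hsub : (hamming ι q).neighborFinset x ⊆
      (Finset.univ : Finset ι).biUnion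
        (fun i => ((Finset.univ : Finset (Fin q)).erase (x i)).image (Function.update x i)) := by
    intro y hy
    have h1 : hammingDist x y = 1 := ((hamming ι q).mem_neighborFinset x y).mp hy
    unfold hammingDist at h1
    obtain ⟨i, hi⟩ := Finset.card_eq_one.mp h1
    have hmem : ∀ j, x j ≠ y j ↔ j = i := by
      intro j
      have := congrArg (fun s => j ∈ s) hi
      simpa using this
    simp only [Finset.mem_biUnion, Finset.mem_univ, true_and, Finset.mem_image,
      Finset.mem_erase, and_true]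
    refine ⟨i, y i, fun h => (hmem i).mpr rfl h.symm, ?_⟩
    ext j
    by_cases hj : j = i
    · subst hj; simp
    · have := (hmem j).not.mpr hj
      push Not at this
      simp [hj, this]
  have h1 := Finset.card_le_card hsub
  refine h1.trans ?_
  refine (Finset.card_biUnion_le_card_mul _ _ (q - 1) ?_).trans ?_
  · intro i _
    refine Finset.card_image_le.trans ?_
    rw [Finset.card_erase_of_mem (Finset.mem_univ _)]
    simp
  · simp

/-- The points of `A` which are the end of a long chain of points of `A` on a shortest path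
that only uses the first `j` blocks of coordinates. -/
def level (m t q : ℕ) (A : Set (Fin m × Fin t → Fin q)) (j : ℕ) :
    Set (Fin m × Fin t → Fin q) :=
  {x | x ∈ A ∧ ∃ (y : Fin m × Fin t → Fin q) (p : (hamming (Fin m × Fin t) q).Walk y x),
    p.length = hammingDist y x ∧
    (∀ (i : Fin m) (a : Fin t), j ≤ (i : ℕ) → y (i, a) = x (i, a)) ∧
    j + 1 ≤ {z | z ∈ p.support ∧ z ∈ A}.ncard}

lemma level_zero (m t q : ℕ) (A : Set (Fin m × Fin t → Fin q)) : level m t q A 0 = A := by
  ext x
  constructor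
  · intro h; exact h.1
  · intro h
    refine ⟨h, x, Walk.nil, by simp, fun _ _ _ => rfl, ?_⟩
    have : {z | z ∈ (Walk.nil : (hamming (Fin m × Fin t) q).Walk x x).support ∧ z ∈ A} = {x} := by
      ext z
      simp only [Walk.support_nil, List.mem_singleton, Set.mem_ofPred_eq, Set.mem_singleton_iff]
      constructor
      · intro h; exact h.1
      · rintro rfl; exact ⟨rfl, h⟩
    rw [this]
    simp

lemma hammingDist_add {m t q : ℕ} {j : ℕ} {y x x' : Fin m × Fin t → Fin q}
    (h1 : ∀ (i : Fin m) (a : Fin t), j ≤ (i : ℕ) → y (i, a) = x (i, a))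
    (h2 : ∀ (i : Fin m) (a : Fin t), (i : ℕ) ≠ j → x (i, a) = x' (i, a)) :
    hammingDist y x' = hammingDist y x + hammingDist x x' := by
  classical
  unfold hammingDist
  rw [← Finset.card_union_of_disjoint]
  · congr 1
    ext ⟨i, a⟩
    simp only [Finset.mem_filter, Finset.mem_univ, true_and, Finset.mem_union]
    by_cases hj : j ≤ (i : ℕ)
    · rw [h1 i a hj]; simp
    · rw [h2 i a (by omega)]; simp
  · rw [Finset.disjoint_left]
    rintro ⟨i, a⟩ hi hi'
    simp only [Finset.mem_filter, Finset.mem_univ, true_and] at hi hi'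
    by_cases hj : j ≤ (i : ℕ)
    · exact hi (h1 i a hj)
    · exact hi' (h2 i a (by omega))

lemma level_step {m t q : ℕ} (A : Set (Fin m × Fin t → Fin q)) (j : ℕ)
    {x x' : Fin m × Fin t → Fin q} (hx : x ∈ level m t q A j) (hx' : x' ∈ A) (hne : x ≠ x')
    (h : ∀ (i : Fin m) (a : Fin t), (i : ℕ) ≠ j → x (i, a) = x' (i, a)) :
    x' ∈ level m t q A (j + 1) := by
  classical
  obtain ⟨_, y, p, hp, hyx, hcard⟩ := hx
  obtain ⟨r, hr⟩ := exists_walk_hamming _ x x' rfl
  refine ⟨hx', y, p.append r, ?_, ?_, ?_⟩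
  · rw [Walk.length_append, hp, hr, hammingDist_add hyx h]
  · intro i a hi
    rw [hyx i a (by omega), h i a (by omega)]
  · have hlen : (p.append r).length = (hamming (Fin m × Fin t) q).dist y x' := by
      rw [Walk.length_append, hp, hr, dist_hamming, hammingDist_add hyx h]
    have hpath : (p.append r).IsPath := (p.append r).isPath_of_length_eq_dist hlen
    have hnd := hpath.support_nodup
    rw [Walk.support_append, List.nodup_append] at hnd
    have hx't : x' ∈ r.support.tail := by
      have : x' ∈ r.support := r.end_mem_support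
      rw [← Walk.cons_tail_support] at this
      rcases List.mem_cons.mp this with h | h
      · exact absurd h.symm hne
      · exact h
    have hnot : x' ∉ p.support := fun hmem => hnd.2.2 _ hmem _ hx't rfl
    have hsub : insert x' {z | z ∈ p.support ∧ z ∈ A} ⊆
        {z | z ∈ (p.append r).support ∧ z ∈ A} := by
      intro z hz
      rcases Set.mem_insert_iff.mp hz with rfl | hz
      · exact ⟨Walk.end_mem_support _, hx'⟩
      · refine ⟨?_, hz.2⟩
        rw [Walk.support_append]
        exact List.mem_append_left _ hz.1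
    have h1 := Set.ncard_le_ncard hsub (Set.toFinite _)
    rw [Set.ncard_insert_of_notMem (fun hmem => hnot hmem.1) (Set.toFinite _)] at h1
    omega

lemma level_diff (m t q : ℕ) (A : Set (Fin m × Fin t → Fin q)) (j : ℕ) (hj : j < m) :
    (level m t q A j \ level m t q A (j + 1)).ncard ≤ q ^ (t * (m - 1)) := by
  classical
  let φ : (Fin m × Fin t → Fin q) → ({i : Fin m // (i : ℕ) ≠ j} × Fin t → Fin q) :=
    fun x ia => x (ia.1.1, ia.2)
  have hinj : Set.InjOn φ (level m t q A j \ level m t q A (j + 1)) := by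
    intro x hx x' hx' heq
    by_contra hne
    apply hx'.2
    refine level_step A j hx.1 hx'.1.1 hne ?_
    intro i a hi
    exact congrFun heq (⟨i, hi⟩, a)
  have h1 := hinj.ncard_image
  rw [← h1]
  refine (Set.ncard_le_ncard (Set.subset_univ _) (Set.toFinite _)).trans ?_
  rw [Set.ncard_univ, Nat.card_eq_fintype_card]
  simp only [Fintype.card_pi, Fintype.card_fin, Finset.prod_const, Finset.card_univ,
    Fintype.card_prod]
  have h2 : Fintype.card {i : Fin m // (i : ℕ) ≠ j} = m - 1 := by
    have h3 : Fintype.card {i : Fin m // ¬ (i : ℕ) = j} =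
        Fintype.card (Fin m) - Fintype.card {i : Fin m // (i : ℕ) = j} :=
      Fintype.card_subtype_compl _
    have h4 : Fintype.card {i : Fin m // (i : ℕ) = j} = 1 := by
      rw [Fintype.card_eq_one_iff]
      refine ⟨⟨⟨j, hj⟩, rfl⟩, ?_⟩
      rintro ⟨i, hi⟩
      apply Subtype.ext
      apply Fin.ext
      exact hi
    rw [Fintype.card_fin, h4] at h3
    exact h3
  rw [h2, mul_comm]

lemma card_le_level (m t q : ℕ) (A : Set (Fin m × Fin t → Fin q)) (j : ℕ) (hj : j ≤ m) :
    A.ncard ≤ (level m t q A j).ncard + j * q ^ (t * (m - 1)) := by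
  induction j with
  | zero => simp [level_zero]
  | succ j ih =>
    have h1 := ih (by omega)
    have h2 := level_diff m t q A j (by omega)
    have h3 : (level m t q A j).ncard ≤
        (level m t q A (j + 1)).ncard + (level m t q A j \ level m t q A (j + 1)).ncard := by
      rw [add_comm]
      have := Set.ncard_le_ncard_sdiff_add_ncard (level m t q A j) (level m t q A (j + 1))
        (Set.toFinite _)
      exact this
    calc A.ncard ≤ (level m t q A j).ncard + j * q ^ (t * (m - 1)) := h1
      _ ≤ (level m t q A (j + 1)).ncard + q ^ (t * (m - 1)) + j * q ^ (t * (m - 1)) := by omega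
      _ = (level m t q A (j + 1)).ncard + (j + 1) * q ^ (t * (m - 1)) := by ring

lemma card_indep_le {k d m t q : ℕ} (hkm : k = m + 1) (hd : t * m ≤ d)
    (A : Set (Fin m × Fin t → Fin q)) (hA : Indep (hamming (Fin m × Fin t) q) k d A) :
    A.ncard ≤ m * q ^ (t * (m - 1)) := by
  have h1 := card_le_level m t q A m le_rfl
  have h2 : level m t q A m = ∅ := by
    rw [Set.eq_empty_iff_forall_notMem]
    rintro x ⟨hx, y, p, hp, _, hcard⟩
    have h3 := hA y x p (by rw [hp, dist_hamming]) ?_
    · omega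
    · rw [hp]
      refine le_trans ?_ hd
      have := hammingDist_le_card_fintype (x := y) (y := x)
      simp only [Fintype.card_prod, Fintype.card_fin] at this
      rw [mul_comm]
      exact this
  rw [h2] at h1
  simpa using h1

lemma colours_ge {k d m t q c : ℕ} (hkm : k = m + 1) (hm : 1 ≤ m) (hd : t * m ≤ d) (hq : 1 ≤ q)
    (f : (Fin m × Fin t → Fin q) → Fin c)
    (hf : ∀ i, Indep (hamming (Fin m × Fin t) q) k d {v | f v = i}) :
    q ^ t ≤ m * c := by
  classical
  have h1 : Fintype.card (Fin m × Fin t → Fin q) ≤ c * (m * q ^ (t * (m - 1))) := by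
    have h2 := Finset.card_eq_sum_card_fiberwise (f := f)
      (s := (Finset.univ : Finset (Fin m × Fin t → Fin q))) (t := Finset.univ)
      (by simp)
    rw [Finset.card_univ] at h2
    rw [h2]
    refine (Finset.sum_le_card_nsmul _ _ (m * q ^ (t * (m - 1))) ?_).trans ?_
    · intro i _
      have h3 := card_indep_le hkm hd _ (hf i)
      rw [Set.ncard_eq_toFinset_card'] at h3
      simpa using h3
    · simp
  simp only [Fintype.card_pi, Fintype.card_fin, Finset.prod_const, Finset.card_univ,
    Fintype.card_prod] at h1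
  have h4 : m * t = t * (m - 1) + t := by
    obtain ⟨m', rfl⟩ : ∃ m', m = m' + 1 := ⟨m - 1, by omega⟩
    simp only [Nat.add_sub_cancel]
    ring
  rw [h4, pow_add] at h1
  have h5 : 0 < q ^ (t * (m - 1)) := Nat.pow_pos (by omega)
  have h6 : q ^ (t * (m - 1)) * q ^ t ≤ q ^ (t * (m - 1)) * (m * c) := by
    calc q ^ (t * (m - 1)) * q ^ t ≤ c * (m * q ^ (t * (m - 1))) := h1
      _ = q ^ (t * (m - 1)) * (m * c) := by ring
  exact Nat.le_of_mul_le_mul_left h6 h5

/-! ### Transport along isomorphisms and the lower bound -/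

lemma chi_exists {V : Type*} [Fintype V] (G : SimpleGraph V) (k d : ℕ) (hk : 2 ≤ k) :
    ∃ f : V → Fin (chi G k d), ∀ i, Indep G k d {v | f v = i} := by
  classical
  have hne : {c | ∃ f : V → Fin c, ∀ i, Indep G k d {v | f v = i}}.Nonempty := by
    refine ⟨Fintype.card V, Fintype.equivFin V, fun i => indep_of_far G k d hk _ ?_⟩
    intro x hx y hy hxy _
    exact absurd ((Fintype.equivFin V).injective (hx.trans hy.symm)) hxy
  exact Nat.sInf_mem hne

lemma indep_iso {V W : Type*} {G : SimpleGraph V} {H : SimpleGraph W} (e : G ≃g H) {k d : ℕ}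
    {S : Set W} (hS : Indep H k d S) : Indep G k d (e ⁻¹' S) := by
  intro u v p hp hpd
  have hmap : (p.map e.toHom).length = H.dist (e u) (e v) := by
    rw [Walk.length_map]
    refine le_antisymm ?_ ?_
    · obtain ⟨r, hr⟩ := (p.map e.toHom).reachable.exists_walk_length_eq_dist
      rw [hp]
      have h1 := dist_le ((r.map e.symm.toHom).copy (e.symm_apply_apply u) (e.symm_apply_apply v))
      rw [Walk.length_copy, Walk.length_map, hr] at h1
      exact h1
    · have h1 := dist_le (p.map e.toHom)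
      rw [Walk.length_map] at h1
      exact h1
  have h2 := hS _ _ (p.map e.toHom) hmap (by rw [Walk.length_map]; exact hpd)
  have h3 : {x | x ∈ (p.map e.toHom).support ∧ x ∈ S} =
      e '' {x | x ∈ p.support ∧ x ∈ e ⁻¹' S} := by
    ext x
    simp only [Walk.support_map, List.mem_map, Set.mem_ofPred_eq, Set.mem_image,
      Set.mem_preimage]
    constructor
    · rintro ⟨⟨a, ha, rfl⟩, hx⟩
      exact ⟨a, ⟨ha, hx⟩, rfl⟩
    · rintro ⟨a, ⟨ha, hx⟩, rfl⟩
      exact ⟨⟨a, ha, rfl⟩, hx⟩
  rw [h3, Set.ncard_image_of_injective _ e.injective] at h2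
  exact h2

lemma chi_iso_le {V W : Type*} [Fintype W] {G : SimpleGraph V} {H : SimpleGraph W} (e : G ≃g H)
    {k d : ℕ} (hk : 2 ≤ k) : chi G k d ≤ chi H k d := by
  obtain ⟨f, hf⟩ := chi_exists H k d hk
  refine Nat.sInf_le ⟨fun v => f (e v), fun i => ?_⟩
  exact indep_iso e (hf i)

lemma M_bdd (k d n Δ : ℕ) : BddAbove {c | ∃ (G : SimpleGraph (Fin n)) (_ : DecidableRel G.Adj),
    G.maxDegree ≤ Δ ∧ chi G k d = c} := by
  have : {c | ∃ (G : SimpleGraph (Fin n)) (_ : DecidableRel G.Adj),
      G.maxDegree ≤ Δ ∧ chi G k d = c} ⊆ Set.range (fun G : SimpleGraph (Fin n) => chi G k d) := by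
    rintro c ⟨G, _, _, rfl⟩
    exact ⟨G, rfl⟩
  exact ((Set.finite_range _).subset this).bddAbove

lemma le_F {k d n Δ : ℕ} (hn : 1 ≤ n) (G : SimpleGraph (Fin n)) [DecidableRel G.Adj]
    (hG : G.maxDegree ≤ Δ) : (chi G k d : ℕ∞) ≤ F k d Δ := by
  have h1 : chi G k d ≤ M k d n Δ := le_csSup (M_bdd k d n Δ) ⟨G, inferInstance, hG, rfl⟩
  calc (chi G k d : ℕ∞) ≤ (M k d n Δ : ℕ∞) := by exact_mod_cast h1
    _ ≤ F k d Δ := le_iSup₂ (f := fun (n : ℕ) (_ : 1 ≤ n) => (M k d n Δ : ℕ∞)) n hn

lemma F_le {k d Δ : ℕ} (hk : 2 ≤ k) :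
    F k d Δ ≤ ((1 + Δ * ∑ i ∈ Finset.range (d / (k - 1)), (Δ - 1) ^ i : ℕ) : ℕ∞) := by
  refine iSup₂_le fun n hn => ?_
  have : M k d n Δ ≤ 1 + Δ * ∑ i ∈ Finset.range (d / (k - 1)), (Δ - 1) ^ i := by
    refine csSup_le' ?_
    rintro c ⟨G, _, hG, rfl⟩
    refine (chi_le G k d hk).trans ?_
    gcongr
  exact_mod_cast this

lemma maxDegree_iso_le {V W : Type*} [Fintype V] [Fintype W] {G : SimpleGraph V}
    {H : SimpleGraph W} [DecidableRel G.Adj] [DecidableRel H.Adj] (e : G ≃g H) :
    G.maxDegree ≤ H.maxDegree := by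
  apply maxDegree_le_of_forall_degree_le
  intro v
  rw [← e.degree_eq v]
  exact H.degree_le_maxDegree _

lemma F_ge {k d Δ m t : ℕ} (hkm : k = m + 1) (hm : 1 ≤ m) (hd : t * m ≤ d) :
    (((Δ / (m * t) + 1) ^ t : ℕ) : ℕ∞) ≤ (m : ℕ∞) * F k d Δ := by
  classical
  obtain ⟨q, hq⟩ : ∃ q, q = Δ / (m * t) + 1 := ⟨_, rfl⟩
  have hq1 : 1 ≤ q := by rw [hq]; exact Nat.le_add_left 1 _
  rw [← hq]
  let V := Fin m × Fin t → Fin q
  let n := Fintype.card V
  let e : Fin n ≃ V := (Fintype.equivFin V).symm
  let G : SimpleGraph (Fin n) := (hamming (Fin m × Fin t) q).comap e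
  let E : G ≃g hamming (Fin m × Fin t) q := Iso.comap e _
  have hmax : G.maxDegree ≤ Δ := by
    refine (maxDegree_iso_le E).trans (hamming_degree.trans ?_)
    rw [Fintype.card_prod, Fintype.card_fin, Fintype.card_fin, hq, Nat.add_sub_cancel]
    exact Nat.mul_div_le _ _
  have hn : 1 ≤ n := by
    have : Nonempty V := ⟨fun _ => ⟨0, hq1⟩⟩
    exact Fintype.card_pos
  have h1 : (chi G k d : ℕ∞) ≤ F k d Δ := le_F hn G hmax
  have h2 : chi (hamming (Fin m × Fin t) q) k d ≤ chi G k d := chi_iso_le E.symm (by omega)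
  obtain ⟨f, hf⟩ := chi_exists (hamming (Fin m × Fin t) q) k d (by omega)
  have h3 := colours_ge hkm hm hd hq1 f hf
  calc ((q ^ t : ℕ) : ℕ∞) ≤ ((m * chi G k d : ℕ) : ℕ∞) := by
        exact_mod_cast h3.trans (Nat.mul_le_mul_left _ h2)
    _ = (m : ℕ∞) * (chi G k d : ℕ∞) := by push_cast; rfl
    _ ≤ (m : ℕ∞) * F k d Δ := by gcongr

/-- For all integers `3 ≤ k ≤ d + 1`, with `t = ⌊d / (k - 1)⌋` (so `t ≥ 1`):
`F_{k,d}(Δ) ≤ 1 + Δ ∑_{i<t} (Δ-1)^i` and `(⌊Δ / ((k-1)t)⌋ + 1)^t ≤ (k-1) F_{k,d}(Δ)` for every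
`Δ`, and consequently `F_{k,d}(Δ) = Θ(Δ^t)` as `Δ → ∞`. -/
theorem result (k d : ℕ) (hk : 3 ≤ k) (hkd : k ≤ d + 1) :
    (∀ Δ : ℕ, F k d Δ ≤
      ((1 + Δ * ∑ i ∈ Finset.range (d / (k - 1)), (Δ - 1) ^ i : ℕ) : ℕ∞)) ∧
    (∀ Δ : ℕ, (((Δ / ((k - 1) * (d / (k - 1))) + 1) ^ (d / (k - 1)) : ℕ) : ℕ∞) ≤
      ((k - 1 : ℕ) : ℕ∞) * F k d Δ) ∧
    (fun Δ : ℕ => ((F k d Δ).toNat : ℝ)) =Θ[atTop] (fun Δ : ℕ => (Δ : ℝ) ^ (d / (k - 1))) := by
  have hup : ∀ Δ : ℕ, F k d Δ ≤
      ((1 + Δ * ∑ i ∈ Finset.range (d / (k - 1)), (Δ - 1) ^ i : ℕ) : ℕ∞) :=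
    fun Δ => F_le (by omega)
  have ht : 1 ≤ d / (k - 1) := (Nat.one_le_div_iff (by omega)).mpr (by omega)
  have hlow : ∀ Δ : ℕ, (((Δ / ((k - 1) * (d / (k - 1))) + 1) ^ (d / (k - 1)) : ℕ) : ℕ∞) ≤
      ((k - 1 : ℕ) : ℕ∞) * F k d Δ :=
    fun Δ => F_ge (by omega) (by omega) (Nat.div_mul_le_self d (k - 1))
  refine ⟨hup, hlow, ?_⟩
  obtain ⟨t, ht'⟩ : ∃ t, t = d / (k - 1) := ⟨_, rfl⟩
  obtain ⟨m, hm⟩ : ∃ m, m = k - 1 := ⟨_, rfl⟩
  rw [← ht'] at hup hlow ht ⊢
  rw [← hm] at hlow
  have hfin : ∀ Δ : ℕ, ((F k d Δ).toNat : ℕ∞) = F k d Δ := fun Δ =>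
    ENat.natCast_toNat (ne_top_of_le_ne_top (ENat.natCast_ne_top _) (hup Δ))
  constructor
  · refine IsBigO.of_bound (t + 1 : ℝ) ?_
    filter_upwards [eventually_ge_atTop 1] with Δ hΔ
    have h1 := hup Δ
    rw [← hfin Δ] at h1
    have h2 : (F k d Δ).toNat ≤ 1 + Δ * ∑ i ∈ Finset.range t, (Δ - 1) ^ i := by
      exact_mod_cast h1
    have h3 : 1 + Δ * ∑ i ∈ Finset.range t, (Δ - 1) ^ i ≤ (t + 1) * Δ ^ t := by
      have h4 : Δ * ∑ i ∈ Finset.range t, (Δ - 1) ^ i ≤ t * Δ ^ t := by
        calc Δ * ∑ i ∈ Finset.range t, (Δ - 1) ^ i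
            ≤ Δ * ∑ _i ∈ Finset.range t, Δ ^ (t - 1) := by
              refine Nat.mul_le_mul_left _ (Finset.sum_le_sum fun i hi => ?_)
              rw [Finset.mem_range] at hi
              calc (Δ - 1) ^ i ≤ Δ ^ i := Nat.pow_le_pow_left (by omega) _
                _ ≤ Δ ^ (t - 1) := Nat.pow_le_pow_right hΔ (by omega)
          _ = t * Δ ^ t := by
              rw [Finset.sum_const, Finset.card_range, smul_eq_mul]
              obtain ⟨s, rfl⟩ : ∃ s, t = s + 1 := ⟨t - 1, by omega⟩
              simp only [Nat.add_sub_cancel]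
              ring
      have h5 : 1 ≤ Δ ^ t := Nat.one_le_pow _ _ hΔ
      nlinarith
    have h6 : ((F k d Δ).toNat : ℝ) ≤ (t + 1) * (Δ : ℝ) ^ t := by
      exact_mod_cast h2.trans h3
    rw [Real.norm_of_nonneg (by positivity), Real.norm_of_nonneg (by positivity)]
    exact h6
  · refine IsBigO.of_bound ((m : ℝ) * ((m * t : ℕ) : ℝ) ^ t) ?_
    filter_upwards [eventually_ge_atTop 1] with Δ hΔ
    have h1 := hlow Δ
    rw [← hfin Δ] at h1
    have h2 : (Δ / (m * t) + 1) ^ t ≤ m * (F k d Δ).toNat := by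
      exact_mod_cast h1
    have hmt : 0 < m * t := Nat.mul_pos (by omega) (by omega)
    have h3 : Δ ≤ (m * t) * (Δ / (m * t) + 1) := (Nat.lt_mul_div_succ Δ hmt).le
    have h4 : Δ ^ t ≤ m * (m * t) ^ t * (F k d Δ).toNat := by
      calc Δ ^ t ≤ ((m * t) * (Δ / (m * t) + 1)) ^ t := Nat.pow_le_pow_left h3 _
        _ = (m * t) ^ t * (Δ / (m * t) + 1) ^ t := by rw [mul_pow]
        _ ≤ (m * t) ^ t * (m * (F k d Δ).toNat) := Nat.mul_le_mul_left _ h2
        _ = m * (m * t) ^ t * (F k d Δ).toNat := by ring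
    rw [Real.norm_of_nonneg (by positivity), Real.norm_of_nonneg (by positivity)]
    exact_mod_cast h4

end Pool.Agent.Results.MP_70a435_co.OrderOfMagnitude
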